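import Mathlib

namespace Pool.Agent.H.MP_f07be6_gt
open Real
open scoped ContDiff

/-- trigonometric polynomials without constant term -/
def T : Submodule ℝ (ℝ → ℝ) :=
  Submodule.span ℝ {f | ∃ k : ℕ, 1 ≤ k ∧ (f = (fun t => cos (k * t)) ∨ f = fun t => sin (k * t))}

lemma T_cos (k : ℕ) (hk : 1 ≤ k) : (fun t => cos (k * t)) ∈ T :=
  Submodule.subset_span ⟨k, hk, Or.inl rfl⟩

lemma T_sin (k : ℕ) (hk : 1 ≤ k) : (fun t => sin (k * t)) ∈ T :=
  Submodule.subset_span ⟨k, hk, Or.inr rfl⟩

lemma T_smooth {f : ℝ → ℝ} (hf : f ∈ T) : ContDiff ℝ ∞ f := by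
  induction hf using Submodule.span_induction with
  | mem f h =>
    obtain ⟨k, -, rfl | rfl⟩ := h <;> fun_prop
  | zero => exact contDiff_const
  | add f g _ _ hf hg => exact hf.add hg
  | smul a f _ hf => exact hf.const_smul a

lemma T_per {f : ℝ → ℝ} (hf : f ∈ T) : Function.Periodic f (2 * π) := by
  induction hf using Submodule.span_induction with
  | mem f h =>
    obtain ⟨k, -, rfl | rfl⟩ := h
    · intro t
      simp only [mul_add]
      exact cos_add_nat_mul_two_pi _ _
    · intro t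
      simp only [mul_add]
      exact sin_add_nat_mul_two_pi _ _
  | zero => intro t; rfl
  | add f g _ _ hf hg => exact hf.add hg
  | smul a f _ hf => intro t; simp [hf t]

lemma T_solve {f : ℝ → ℝ} (hf : f ∈ T) : ∃ F ∈ T, ∃ F' : ℝ → ℝ,
    (∀ t, HasDerivAt F (F' t) t) ∧ ∀ t, HasDerivAt F' (f (2 * t) - F t) t := by
  induction hf using Submodule.span_induction with
  | mem f h =>
    obtain ⟨k, hk, h⟩ := h
    have hk' : (1 : ℝ) ≤ k := by exact_mod_cast hk
    have hne : (1 - (2 * k : ℝ) ^ 2) ≠ 0 := by nlinarith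
    have h1 : ∀ t : ℝ, HasDerivAt (fun t : ℝ => ((2 * k : ℕ) : ℝ) * t) ((2 * k : ℕ) : ℝ) t :=
      fun t => by simpa using (hasDerivAt_id t).const_mul ((2 * k : ℕ) : ℝ)
    rcases h with rfl | rfl
    · refine ⟨(1 - (2 * k : ℝ) ^ 2)⁻¹ • fun t => cos ((2 * k : ℕ) * t),
        T.smul_mem _ (T_cos _ (by omega)),
        fun t => (1 - (2 * k : ℝ) ^ 2)⁻¹ * (-sin ((2 * k : ℕ) * t) * ((2 * k : ℕ) : ℝ)),
        fun t => ((h1 t).cos).const_mul _, fun t => ?_⟩
      have := (((h1 t).sin.neg).mul_const ((2 * k : ℕ) : ℝ)).const_mul (1 - (2 * k : ℝ) ^ 2)⁻¹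
      refine this.congr_deriv ?_
      have e : (k : ℝ) * (2 * t) = ((2 * k : ℕ) : ℝ) * t := by push_cast; ring
      simp only [Pi.smul_apply, smul_eq_mul, e]
      generalize cos (((2 * k : ℕ) : ℝ) * t) = c
      push_cast
      linear_combination c * inv_mul_cancel₀ hne
    · refine ⟨(1 - (2 * k : ℝ) ^ 2)⁻¹ • fun t => sin ((2 * k : ℕ) * t),
        T.smul_mem _ (T_sin _ (by omega)),
        fun t => (1 - (2 * k : ℝ) ^ 2)⁻¹ * (cos ((2 * k : ℕ) * t) * ((2 * k : ℕ) : ℝ)),
        fun t => ((h1 t).sin).const_mul _, fun t => ?_⟩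
      have := (((h1 t).cos).mul_const ((2 * k : ℕ) : ℝ)).const_mul (1 - (2 * k : ℝ) ^ 2)⁻¹
      refine this.congr_deriv ?_
      have e : (k : ℝ) * (2 * t) = ((2 * k : ℕ) : ℝ) * t := by push_cast; ring
      simp only [Pi.smul_apply, smul_eq_mul, e]
      generalize sin (((2 * k : ℕ) : ℝ) * t) = c
      push_cast
      linear_combination c * inv_mul_cancel₀ hne
  | zero => exact ⟨0, T.zero_mem, 0, fun t => hasDerivAt_const _ _,
      fun t => (hasDerivAt_const t (0 : ℝ)).congr_deriv (by simp)⟩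
  | add f g _ _ hf hg =>
    obtain ⟨F, hF, F', h1, h2⟩ := hf
    obtain ⟨G, hG, G', h3, h4⟩ := hg
    refine ⟨F + G, T.add_mem hF hG, F' + G', fun t => (h1 t).add (h3 t), fun t => ?_⟩
    refine ((h2 t).add (h4 t)).congr_deriv ?_
    simp only [Pi.add_apply]; ring
  | smul a f _ hf =>
    obtain ⟨F, hF, F', h1, h2⟩ := hf
    refine ⟨a • F, T.smul_mem _ hF, a • F', fun t => (h1 t).const_mul a, fun t => ?_⟩
    refine ((h2 t).const_mul a).congr_deriv ?_
    simp only [Pi.smul_apply, smul_eq_mul]; ring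

/-- no nonzero combination has vanishing derivatives of orders 1..n at a point -/
def ND {n : ℕ} (G : Fin n → ℝ → ℝ) : Prop :=
  ∀ (t : ℝ) (a : Fin n → ℝ),
    (∀ j, 1 ≤ j → j ≤ n → iteratedDeriv j (fun s => ∑ i, a i * G i s) t = 0) → a = 0

lemma ND_scale {n : ℕ} {G : Fin n → ℝ → ℝ} (h : ND G) (w : Fin n → ℝ) (hw : ∀ i, w i ≠ 0) :
    ND (fun i s => w i * G i s) := by
  intro t a ha
  have := h t (fun i => a i * w i) (by simpa only [mul_assoc] using ha)
  funext i
  have h2 := congrFun this i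
  simpa [hw i] using h2

lemma two_zero (a b t : ℝ) (h1 : iteratedDeriv 1 (fun s => a * cos s + b * sin s) t = 0)
    (h2 : iteratedDeriv 2 (fun s => a * cos s + b * sin s) t = 0) : a = 0 ∧ b = 0 := by
  have d1 : deriv (fun s => a * cos s + b * sin s) = fun s => a * -sin s + b * cos s := by
    funext s
    exact (((hasDerivAt_cos s).const_mul a).add ((hasDerivAt_sin s).const_mul b)).deriv
  have d2 : deriv (fun s => a * -sin s + b * cos s) = fun s => a * -cos s + b * -sin s := by
    funext s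
    exact (((hasDerivAt_sin s).neg.const_mul a).add ((hasDerivAt_cos s).const_mul b)).deriv
  rw [iteratedDeriv_succ, iteratedDeriv_one, d1, d2] at h2
  rw [iteratedDeriv_one, d1] at h1
  have := sin_sq_add_cos_sq t
  simp only at h1 h2
  constructor
  · linear_combination (-sin t) * h1 - cos t * h2 - a * this
  · linear_combination (cos t) * h1 - sin t * h2 - b * this

lemma step {n : ℕ} (G : Fin n → ℝ → ℝ) (hT : ∀ i, G i ∈ T) (h : ND G) :
    ∃ F : Fin n → ℝ → ℝ, (∀ i, F i ∈ T) ∧
      ND (Fin.cons cos (Fin.cons sin F) : Fin (n + 2) → ℝ → ℝ) := by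
  choose F hF F' h1 h2 using fun i => T_solve (hT i)
  refine ⟨F, hF, fun t a ha => ?_⟩
  simp only [Fin.sum_univ_succ, Fin.cons_zero, Fin.cons_succ] at ha
  set b : Fin n → ℝ := fun i => a i.succ.succ with hb
  set φ : ℝ → ℝ := fun s => a 0 * cos s + (a (Fin.succ 0) * sin s + ∑ i, b i * F i s) with hφ
  have hs : ContDiff ℝ ∞ φ := by
    refine (contDiff_const.mul contDiff_cos).add ((contDiff_const.mul contDiff_sin).add ?_)
    exact ContDiff.sum fun i _ => contDiff_const.mul (T_smooth (hF i))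
  have d1 : deriv φ = fun s => a 0 * -sin s + (a (Fin.succ 0) * cos s + ∑ i, b i * F' i s) := by
    funext s
    exact (((hasDerivAt_cos s).const_mul _).add (((hasDerivAt_sin s).const_mul _).add
      (HasDerivAt.fun_sum fun i _ => (h1 i s).const_mul _))).deriv
  have d2 : deriv (deriv φ) = fun s => a 0 * -cos s + (a (Fin.succ 0) * -sin s +
      ∑ i, b i * (G i (2 * s) - F i s)) := by
    rw [d1]
    funext s
    exact (((hasDerivAt_sin s).neg.const_mul _).add (((hasDerivAt_cos s).const_mul _).add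
      (HasDerivAt.fun_sum fun i _ => (h2 i s).const_mul _))).deriv
  set g : ℝ → ℝ := fun s => ∑ i, b i * G i s with hg
  have hgs : ContDiff ℝ ∞ g := ContDiff.sum fun i _ => contDiff_const.mul (T_smooth (hT i))
  have key : (fun s => g (2 * s)) = deriv (deriv φ) + φ := by
    funext s
    rw [d2]
    simp only [hg, hφ, Pi.add_apply, mul_sub, Finset.sum_sub_distrib]
    ring
  have hb0 : b = 0 := by
    refine h (2 * t) b fun j hj1 hjn => ?_
    have e1 := congrFun (iteratedDeriv_comp_const_mul (n := j) (hgs.of_le (by exact_mod_cast le_top)) 2) t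
    have hdd : ContDiff ℝ ∞ (deriv (deriv φ)) := (hs.iterate_deriv 2)
    rw [key, iteratedDeriv_add (hdd.of_le (by exact_mod_cast le_top)).contDiffAt
      (hs.of_le (by exact_mod_cast le_top)).contDiffAt, ← iteratedDeriv_succ', ← iteratedDeriv_succ',
      ha (j + 1 + 1) (by omega) (by omega), ha j hj1 (by omega)] at e1
    have : (2 : ℝ) ^ j ≠ 0 := by positivity
    simpa [this] using e1.symm
  have hφ' : φ = fun s => a 0 * cos s + a (Fin.succ 0) * sin s := by
    funext s; simp [hφ, hb0]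
  obtain ⟨e0, e1⟩ := two_zero (a 0) (a (Fin.succ 0)) t (hφ' ▸ ha 1 le_rfl (by omega))
    (hφ' ▸ ha 2 (by omega) (by omega))
  funext i
  refine Fin.cases e0 (fun i => Fin.cases e1 (fun i => congrFun hb0 i) i) i

lemma base3 : ∃ G : Fin 3 → ℝ → ℝ, (∀ i, G i ∈ T) ∧ ND G := by
  refine ⟨![fun t => 2 * cos t + cos (2 * t), fun t => 2 * sin t - sin (2 * t),
    fun t => sin (3 * t)], fun i => ?_, fun t a ha => ?_⟩
  · fin_cases i
    · have := T.add_mem (T.smul_mem 2 (T_cos 1 le_rfl)) (T_cos 2 (by omega))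
      convert this using 1
      funext t; simp
    · have := T.sub_mem (T.smul_mem 2 (T_sin 1 le_rfl)) (T_sin 2 (by omega))
      convert this using 1
      funext t; simp
    · have := T_sin 3 (by omega)
      convert this using 1
      funext t; simp
  · have l2 : ∀ s : ℝ, HasDerivAt (fun s : ℝ => 2 * s) 2 s :=
      fun s => by simpa using (hasDerivAt_id s).const_mul (2 : ℝ)
    have l3 : ∀ s : ℝ, HasDerivAt (fun s : ℝ => 3 * s) 3 s :=
      fun s => by simpa using (hasDerivAt_id s).const_mul (3 : ℝ)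
    have gen : ∀ p q u v x y : ℝ, deriv (fun s => p * cos s + q * sin s + u * cos (2 * s) +
        v * sin (2 * s) + x * cos (3 * s) + y * sin (3 * s)) = fun s => q * cos s + (-p) * sin s +
        (2 * v) * cos (2 * s) + (-2 * u) * sin (2 * s) + (3 * y) * cos (3 * s) +
        (-3 * x) * sin (3 * s) := by
      intro p q u v x y
      funext s
      have := ((((((hasDerivAt_cos s).const_mul p).add ((hasDerivAt_sin s).const_mul q)).add
        ((l2 s).cos.const_mul u)).add ((l2 s).sin.const_mul v)).add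
        ((l3 s).cos.const_mul x)).add ((l3 s).sin.const_mul y)
      refine this.deriv.trans ?_
      ring
    have e : (fun s => ∑ i, a i * (![fun t => 2 * cos t + cos (2 * t),
        fun t => 2 * sin t - sin (2 * t), fun t => sin (3 * t)] : Fin 3 → ℝ → ℝ) i s) =
        fun s => (2 * a 0) * cos s + (2 * a 1) * sin s + (a 0) * cos (2 * s) +
        (-a 1) * sin (2 * s) + 0 * cos (3 * s) + a 2 * sin (3 * s) := by
      funext s
      simp [Fin.sum_univ_three]
      ring
    rw [e] at ha
    have h1 := ha 1 le_rfl (by omega)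
    have h2 := ha 2 (by omega) (by omega)
    have h3 := ha 3 (by omega) (by omega)
    rw [iteratedDeriv_one, gen] at h1
    rw [iteratedDeriv_succ, iteratedDeriv_one, gen, gen] at h2
    rw [iteratedDeriv_succ, iteratedDeriv_succ, iteratedDeriv_one, gen, gen, gen] at h3
    have c2 : cos (2 * t) = cos (3 * t) * cos t + sin (3 * t) * sin t := by
      rw [← cos_sub]; congr 1; ring
    have s2 : sin (2 * t) = sin (3 * t) * cos t - cos (3 * t) * sin t := by
      rw [← sin_sub]; congr 1; ring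
    simp only [c2, s2] at h1 h2 h3
    have p1 := sin_sq_add_cos_sq t
    have p3 := sin_sq_add_cos_sq (3 * t)
    generalize cos (3 * t) = C at *
    generalize sin (3 * t) = S at *
    generalize cos t = c at *
    generalize sin t = s at *
    set A := a 0 * c + a 1 * s with hA
    set B := -a 0 * s + a 1 * c with hB
    have g1 : -2 * S * A + (2 - 2 * C) * B + 3 * C * a 2 = 0 := by
      rw [hA, hB]; linear_combination h1
    have g2 : (-2 - 4 * C) * A + (4 * S) * B + (-9 * S) * a 2 = 0 := by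
      rw [hA, hB]; linear_combination h2
    have g3 : 8 * S * A + (-2 + 8 * C) * B + (-27 * C) * a 2 = 0 := by
      rw [hA, hB]; linear_combination h3
    have hD : (108 - 24 * C + 24 * C ^ 2) ≠ 0 := by nlinarith [sq_nonneg (2 * C - 1)]
    let M : Matrix (Fin 3) (Fin 3) ℝ := !![-2 * S, 2 - 2 * C, 3 * C; -2 - 4 * C, 4 * S, -9 * S;
      8 * S, -2 + 8 * C, -27 * C]
    have hM : M.det ≠ 0 := by
      have : M.det = -(108 - 24 * C + 24 * C ^ 2) := by
        simp [M, Matrix.det_fin_three]
        have : S ^ 2 = 1 - C ^ 2 := by linarith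
        ring_nf
        rw [this]
        ring
      rw [this]; exact neg_ne_zero.mpr hD
    have hz := Matrix.eq_zero_of_mulVec_eq_zero hM (v := ![A, B, a 2]) (by
      funext i
      fin_cases i <;> simp [M, Matrix.mulVec, dotProduct, Fin.sum_univ_three] <;> linarith)
    have zA : A = 0 := congrFun hz 0
    have zB : B = 0 := congrFun hz 1
    have z2 : a 2 = 0 := congrFun hz 2
    funext i
    fin_cases i
    · show a 0 = 0
      linear_combination c * zA - s * zB - c * hA + s * hB - a 0 * p1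
    · show a 1 = 0
      linear_combination s * zA + c * zB - s * hA - c * hB - a 1 * p1
    · exact z2

lemma all_ND (n : ℕ) (hn : 2 ≤ n) : ∃ G : Fin n → ℝ → ℝ, (∀ i, G i ∈ T) ∧ ND G := by
  induction n using Nat.strong_induction_on with
  | _ n ih =>
    have up : ∀ m, (∃ G : Fin m → ℝ → ℝ, (∀ i, G i ∈ T) ∧ ND G) →
        ∃ G : Fin (m + 2) → ℝ → ℝ, (∀ i, G i ∈ T) ∧ ND G := by
      rintro m ⟨G, h1, h2⟩
      obtain ⟨F, h3, h4⟩ := step G h1 h2
      refine ⟨_, fun i => ?_, h4⟩
      refine Fin.cases ?_ (fun i => Fin.cases ?_ (fun i => h3 i) i) i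
      · simpa using! T_cos 1 le_rfl
      · simpa using! T_sin 1 le_rfl
    obtain rfl | rfl | h4 : n = 2 ∨ n = 3 ∨ 4 ≤ n := by omega
    · exact up 0 ⟨Fin.elim0, fun i => i.elim0, fun t a _ => funext fun i => i.elim0⟩
    · exact base3
    · obtain ⟨m, rfl⟩ : ∃ m, n = m + 2 := ⟨n - 2, by omega⟩
      exact up m (ih m (by omega) (by omega))

end Pool.Agent.H.MP_f07be6_gt
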