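import Pool.Agent.H.MP_f07be6_gt.A

namespace Pool.Agent.H.MP_f07be6_gt
open Real
open scoped ContDiff RealInnerProductSpace

lemma sm_iter {F : Type} [NormedAddCommGroup F] [NormedSpace ℝ F] {γ : ℝ → F}
    (h : ContDiff ℝ ∞ γ) (j : ℕ) : ContDiff ℝ ∞ (iteratedDeriv j γ) := by
  rw [iteratedDeriv_eq_iterate]
  exact h.iterate_deriv j

lemma hd_iter {F : Type} [NormedAddCommGroup F] [NormedSpace ℝ F] {γ : ℝ → F}
    (h : ContDiff ℝ ∞ γ) (j : ℕ) (t : ℝ) :
    HasDerivAt (iteratedDeriv j γ) (iteratedDeriv (j + 1) γ t) t := by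
  rw [iteratedDeriv_succ]
  exact ((sm_iter h j).differentiable (by simp) t).hasDerivAt

lemma iter_clm {F G : Type} [NormedAddCommGroup F] [NormedSpace ℝ F] [NormedAddCommGroup G]
    [NormedSpace ℝ G] (L : F →L[ℝ] G) {γ : ℝ → F} (h : ContDiff ℝ ∞ γ) (j : ℕ) :
    iteratedDeriv j (fun s => L (γ s)) = fun t => L (iteratedDeriv j γ t) := by
  induction j with
  | zero => simp
  | succ j ih =>
    rw [iteratedDeriv_succ, ih]
    funext t
    exact (L.hasFDerivAt.comp_hasDerivAt t (hd_iter h j t)).deriv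

lemma iter_per {F : Type} [NormedAddCommGroup F] [NormedSpace ℝ F] {γ : ℝ → F} {c : ℝ}
    (h : Function.Periodic γ c) (j : ℕ) : Function.Periodic (iteratedDeriv j γ) c := by
  intro t
  have := congrFun (iteratedDeriv_comp_add_const j γ c) t
  rw [← this]
  congr 1
  funext s
  exact h s

/-- the curve with given coordinates -/
noncomputable def P {n : ℕ} (G : Fin n → ℝ → ℝ) : ℝ → EuclideanSpace ℝ (Fin n) :=
  fun t => WithLp.toLp 2 (fun i => G i t)

lemma P_smooth {n : ℕ} {G : Fin n → ℝ → ℝ} (h : ∀ i, ContDiff ℝ ∞ (G i)) : ContDiff ℝ ∞ (P G) :=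
  contDiff_euclidean.mpr h

lemma P_per {n : ℕ} {G : Fin n → ℝ → ℝ} {c : ℝ} (h : ∀ i, Function.Periodic (G i) c) :
    Function.Periodic (P G) c := by
  intro t
  simp only [P]
  congr 1
  funext i
  exact h i t

lemma P_li {n : ℕ} {G : Fin n → ℝ → ℝ} (hs : ∀ i, ContDiff ℝ ∞ (G i)) (h : ND G) (t : ℝ) :
    LinearIndependent ℝ (fun j : Fin n => iteratedDeriv (j + 1) (P G) t) := by
  refine linearIndependent_of_top_le_span_of_card_eq_finrank ?_ (by simp)
  rw [top_le_iff, ← Submodule.orthogonal_eq_bot_iff, eq_bot_iff]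
  intro a ha
  have h0 := h t a.ofLp fun j hj1 hjn => by
    have e : (fun s => ∑ i, a.ofLp i * G i s) = fun s => innerSL ℝ a (P G s) := by
      funext s
      simp [P, PiLp.inner_apply, mul_comm]
    rw [e, iter_clm _ (P_smooth hs)]
    have := (Submodule.mem_orthogonal' _ _).1 ha (iteratedDeriv j (P G) t)
      (Submodule.subset_span ⟨⟨j - 1, by omega⟩, by
        have : j - 1 + 1 = j := by omega
        simp [this]⟩)
    simpa using this
  have : a = 0 := by ext i; exact congrFun h0 i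
  simp [this]

theorem approx (m k : ℕ) (hm : 2 ≤ m) (ε : ℝ) (hε : 0 < ε) :
    ∃ γ : ℝ → EuclideanSpace ℝ (Fin (m + 2)), (ContDiff ℝ ∞ γ ∧ Function.Periodic γ (2 * π) ∧
      ∀ t, LinearIndependent ℝ (fun j : Fin (m + 2) => iteratedDeriv (j + 1) γ t)) ∧
      ∀ j ≤ k, ∀ t, ‖iteratedDeriv j γ t - iteratedDeriv j
        (P (Fin.cons cos (Fin.cons sin fun _ _ => 0) : Fin (m + 2) → ℝ → ℝ)) t‖ < ε := by
  obtain ⟨G, hG, hN⟩ := all_ND m hm
  obtain ⟨F, hF, hN'⟩ := step G hG hN
  set H : Fin (m + 2) → ℝ → ℝ := Fin.cons (fun _ => 0) (Fin.cons (fun _ => 0) F) with hH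
  set C : Fin (m + 2) → ℝ → ℝ := Fin.cons cos (Fin.cons sin fun _ _ => 0) with hC
  have hHT : ∀ i, H i ∈ T := fun i =>
    Fin.cases T.zero_mem (fun i => Fin.cases T.zero_mem (fun i => hF i) i) i
  have hCT : ∀ i, C i ∈ T := fun i => by
    refine Fin.cases ?_ (fun i => Fin.cases ?_ (fun i => T.zero_mem) i) i
    · simpa using! T_cos 1 le_rfl
    · simpa using! T_sin 1 le_rfl
  have sH := P_smooth fun i => T_smooth (hHT i)
  have sC := P_smooth fun i => T_smooth (hCT i)
  have pH := P_per fun i => T_per (hHT i)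
  have pC := P_per fun i => T_per (hCT i)
  have bd : ∀ j, ∃ M : ℝ, ∀ t, ‖iteratedDeriv j (P H) t‖ ≤ M := fun j => by
    have := (iter_per pH j).isBounded_of_continuous (by positivity) (sm_iter sH j).continuous
    obtain ⟨M, hM⟩ := this.exists_norm_le
    exact ⟨M, fun t => hM _ ⟨t, rfl⟩⟩
  choose M hM using bd
  set K : ℝ := 1 + ∑ j ∈ Finset.range (k + 1), |M j| with hK
  have hK0 : 0 < K := by positivity
  set δ := ε / K with hδ
  have hδ0 : 0 < δ := by positivity
  set w : Fin (m + 2) → ℝ := Fin.cons 1 (Fin.cons 1 fun _ => δ) with hw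
  have hw0 : ∀ i, w i ≠ 0 := fun i =>
    Fin.cases one_ne_zero (fun i => Fin.cases one_ne_zero (fun _ => hδ0.ne') i) i
  have hN2 := ND_scale hN' w hw0
  have e : P (fun i s => w i * (Fin.cons cos (Fin.cons sin F) : Fin (m + 2) → ℝ → ℝ) i s) =
      P C + δ • P H := by
    funext t
    ext i
    refine Fin.cases ?_ (fun i => Fin.cases ?_ (fun i => ?_) i) i <;> simp [P, hw, hC, hH]
  have hsm : ∀ i, ContDiff ℝ ∞
      (fun s => w i * (Fin.cons cos (Fin.cons sin F) : Fin (m + 2) → ℝ → ℝ) i s) := fun i => by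
    refine contDiff_const.mul ?_
    exact Fin.cases contDiff_cos (fun i => Fin.cases contDiff_sin (fun i => T_smooth (hF i)) i) i
  refine ⟨P C + δ • P H, ⟨sC.add (sH.const_smul δ), pC.add (fun t => by simp [pH t]),
    fun t => e ▸ P_li hsm hN2 t⟩, fun j hj t => ?_⟩
  have sH' : ContDiff ℝ ∞ (δ • P H) := sH.const_smul δ
  rw [iteratedDeriv_add (sC.of_le (by exact_mod_cast le_top)).contDiffAt
    (sH'.of_le (by exact_mod_cast le_top)).contDiffAt,
    iteratedDeriv_const_smul (sH.of_le (by exact_mod_cast le_top)).contDiffAt,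
    add_sub_cancel_left, norm_smul, Real.norm_of_nonneg hδ0.le]
  have h1 : |M j| ≤ ∑ j ∈ Finset.range (k + 1), |M j| :=
    Finset.single_le_sum (f := fun j => |M j|) (fun _ _ => abs_nonneg _)
      (Finset.mem_range.mpr (by omega))
  have h2 : ‖iteratedDeriv j (P H) t‖ < K := by
    have := hM j t
    have := le_abs_self (M j)
    linarith
  calc δ * ‖iteratedDeriv j (P H) t‖ < δ * K := by gcongr
    _ = ε := by rw [hδ]; field_simp

end Pool.Agent.H.MP_f07be6_gt
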