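import Pool.Agent.H.MP_f07be6_gt.B

namespace Pool.Agent.H.MP_f07be6_gt
open Real InnerProductSpace
open scoped ContDiff RealInnerProductSpace

variable {E : Type} [NormedAddCommGroup E] [InnerProductSpace ℝ E]

lemma perp_of_unit {T : ℝ → E} (h1 : ∀ s, ‖T s‖ = 1) {s : ℝ} {v : E} (hd : HasDerivAt T v s) :
    ⟪T s, v⟫ = 0 := by
  have h2 := hd.inner ℝ hd
  have e : (fun t => ⟪T t, T t⟫) = fun _ => (1 : ℝ) := by
    funext t; rw [real_inner_self_eq_norm_sq, h1]; norm_num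
  rw [e] at h2
  have := h2.unique (hasDerivAt_const s (1 : ℝ))
  rw [real_inner_comm (T s) v] at this
  linarith

lemma arc {T T' : ℝ → E} (h1 : ∀ s, ‖T s‖ = 1) (hd : ∀ s, HasDerivAt T (T' s) s)
    (hc : Continuous T') (p : E) (hp : ‖p‖ = 1) {a b : ℝ} (hab : a ≤ b) :
    |arccos ⟪p, T b⟫ - arccos ⟪p, T a⟫| ≤ ∫ s in a..b, ‖T' s‖ := by
  have hx : ∀ s, ⟪p, T s⟫ ^ 2 ≤ 1 := fun s => by
    have := abs_real_inner_le_norm p (T s)
    rw [hp, h1, mul_one] at this
    exact (sq_le_one_iff_abs_le_one _).2 this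
  have main : ∀ ρ ∈ Set.Ioo (0 : ℝ) 1,
      |arccos (ρ * ⟪p, T b⟫) - arccos (ρ * ⟪p, T a⟫)| ≤ ∫ s in a..b, ‖T' s‖ := by
    intro ρ hρ
    have hlt : ∀ s, (ρ * ⟪p, T s⟫) ^ 2 < 1 := fun s => by
      have := hx s
      have h3 : ρ ^ 2 < 1 := by nlinarith [hρ.1, hρ.2]
      rw [mul_pow]; nlinarith [sq_nonneg ρ, sq_nonneg ⟪p, T s⟫]
    have hD : ∀ s, HasDerivAt (fun s => arccos (ρ * ⟪p, T s⟫))
        (-(1 / √(1 - (ρ * ⟪p, T s⟫) ^ 2)) * (ρ * ⟪p, T' s⟫)) s := fun s => by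
      have h3 : HasDerivAt (fun s => ρ * ⟪p, T s⟫) (ρ * ⟪p, T' s⟫) s :=
        ((innerSL ℝ p).hasFDerivAt.comp_hasDerivAt s (hd s)).const_mul ρ
      refine (hasDerivAt_arccos ?_ ?_).comp s h3
      · intro h; have := hlt s; rw [h] at this; norm_num at this
      · intro h; have := hlt s; rw [h] at this; norm_num at this
    have hB : ∀ s, |-(1 / √(1 - (ρ * ⟪p, T s⟫) ^ 2)) * (ρ * ⟪p, T' s⟫)| ≤ ‖T' s‖ := fun s => by
      set x := ⟪p, T s⟫ with hxs
      have hpos : 0 < √(1 - (ρ * x) ^ 2) := sqrt_pos.2 (by linarith [hlt s])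
      have e1 : ⟪p, T' s⟫ = ⟪p - x • T s, T' s⟫ := by
        rw [inner_sub_left, real_inner_smul_left, perp_of_unit h1 (hd s)]; ring
      have e2 : ‖p - x • T s‖ ^ 2 = 1 - x ^ 2 := by
        rw [norm_sub_sq_real, real_inner_smul_right, norm_smul, hp, h1, ← hxs, Real.norm_eq_abs,
          mul_one, sq_abs]; ring
      have e3 : ρ * ‖p - x • T s‖ ≤ √(1 - (ρ * x) ^ 2) := by
        apply le_sqrt_of_sq_le
        rw [mul_pow, e2, mul_pow]
        nlinarith [hρ.1, hρ.2]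
      rw [abs_mul, abs_neg, abs_of_pos (one_div_pos.2 hpos), abs_mul, abs_of_pos hρ.1, e1,
        one_div, inv_mul_le_iff₀ hpos]
      have := abs_real_inner_le_norm (p - x • T s) (T' s)
      calc ρ * |⟪p - x • T s, T' s⟫| ≤ ρ * (‖p - x • T s‖ * ‖T' s‖) := by
            gcongr; exact hρ.1.le
        _ = (ρ * ‖p - x • T s‖) * ‖T' s‖ := by ring
        _ ≤ _ := by gcongr
    have hi : MeasureTheory.IntegrableOn (fun s => ‖T' s‖) (Set.Icc a b) :=
      hc.norm.integrableOn_Icc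
    rw [abs_le]
    constructor
    · have := intervalIntegral.sub_le_integral_of_hasDeriv_right_of_le hab
        (g := fun s => -arccos (ρ * ⟪p, T s⟫))
        (fun s _ => (hD s).neg.continuousAt.continuousWithinAt)
        (fun s _ => (hD s).neg.hasDerivWithinAt) hi (fun s _ => by
          have := (abs_le.1 (hB s)).1; linarith)
      linarith
    · exact intervalIntegral.sub_le_integral_of_hasDeriv_right_of_le hab
        (g := fun s => arccos (ρ * ⟪p, T s⟫))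
        (fun s _ => (hD s).continuousAt.continuousWithinAt)
        (fun s _ => (hD s).hasDerivWithinAt) hi (fun s _ => (abs_le.1 (hB s)).2)
  have hcl : IsClosed {ρ : ℝ | |arccos (ρ * ⟪p, T b⟫) - arccos (ρ * ⟪p, T a⟫)| ≤
      ∫ s in a..b, ‖T' s‖} := by
    refine isClosed_le ?_ continuous_const
    exact ((continuous_arccos.comp (continuous_id.mul continuous_const)).sub
      (continuous_arccos.comp (continuous_id.mul continuous_const))).abs
  have : (1 : ℝ) ∈ closure (Set.Ioo (0 : ℝ) 1) := by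
    rw [closure_Ioo zero_ne_one]; simp
  simpa using hcl.closure_subset_iff.2 main this

theorem fenchel {γ T T' : ℝ → E} {w : ℝ → ℝ} (h1 : ∀ s, ‖T s‖ = 1)
    (hd : ∀ s, HasDerivAt T (T' s) s) (hc : Continuous T') (hw : ∀ s, 0 < w s)
    (hγ : ∀ s, HasDerivAt γ (w s • T s) s) {L : ℝ} (hL : 0 < L) (p1 : γ L = γ 0)
    (p2 : T L = T 0) : 2 * π ≤ ∫ s in (0 : ℝ)..L, ‖T' s‖ := by
  by_contra hlt
  push Not at hlt
  set Λ : ℝ → ℝ := fun s => ∫ u in (0 : ℝ)..s, ‖T' u‖ with hΛ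
  have hi : ∀ a b, IntervalIntegrable (fun u => ‖T' u‖) MeasureTheory.volume a b :=
    fun a b => hc.norm.intervalIntegrable a b
  have hΛc : Continuous Λ := intervalIntegral.continuous_primitive hi 0
  have hsub : ∀ a b, ∫ u in a..b, ‖T' u‖ = Λ b - Λ a := fun a b =>
    (intervalIntegral.integral_interval_sub_left (hi 0 b) (hi 0 a)).symm
  have hΛ0 : Λ 0 = 0 := by simp [hΛ]
  have hΛL : 0 ≤ Λ L := intervalIntegral.integral_nonneg hL.le fun _ _ => norm_nonneg _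
  obtain ⟨c, hcm, hcv⟩ := intermediate_value_Icc hL.le hΛc.continuousOn
    (show Λ L / 2 ∈ Set.Icc (Λ 0) (Λ L) from ⟨by linarith, by linarith⟩)
  have hself : ∀ s, arccos ⟪T s, T s⟫ = 0 := fun s => by
    rw [real_inner_self_eq_norm_sq, h1]; simp
  have hlt' : Λ L < 2 * π := hlt
  have hsum : ∀ s ∈ Set.Icc 0 L, arccos ⟪T 0, T s⟫ + arccos ⟪T c, T s⟫ < π := by
    intro s hs
    rcases le_total s c with h | h
    · have a1 := (abs_le.1 (arc h1 hd hc (T 0) (h1 0) hs.1)).2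
      have a2 := (abs_le.1 (arc h1 hd hc (T c) (h1 c) h)).1
      rw [hsub, hself] at a1 a2
      linarith
    · have a1 := (abs_le.1 (arc h1 hd hc (T c) (h1 c) h)).2
      have a2 := (abs_le.1 (arc h1 hd hc (T L) (h1 L) hs.2)).1
      rw [hsub, hself] at a1 a2
      rw [p2] at a2
      linarith
  have hb : ∀ a s, -1 ≤ ⟪T a, T s⟫ ∧ ⟪T a, T s⟫ ≤ 1 := fun a s => by
    have := abs_real_inner_le_norm (T a) (T s)
    rw [h1, h1, mul_one] at this
    exact abs_le.1 this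
  have hpos : ∀ s ∈ Set.Icc 0 L, 0 < ⟪T 0 + T c, T s⟫ := by
    intro s hs
    have := cos_lt_cos_of_nonneg_of_le_pi (arccos_nonneg ⟪T 0, T s⟫)
      (y := π - arccos ⟪T c, T s⟫) (by linarith [arccos_nonneg ⟪T c, T s⟫])
      (by linarith [hsum s hs])
    rw [cos_pi_sub, cos_arccos (hb _ _).1 (hb _ _).2, cos_arccos (hb _ _).1 (hb _ _).2] at this
    rw [inner_add_left]; linarith
  have hD : ∀ s, HasDerivAt (fun s => ⟪T 0 + T c, γ s⟫) ⟪T 0 + T c, w s • T s⟫ s := fun s =>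
    (innerSL ℝ (T 0 + T c)).hasFDerivAt.comp_hasDerivAt s (hγ s)
  have hm := strictMonoOn_of_deriv_pos (convex_Icc 0 L)
    (fun s _ => (hD s).continuousAt.continuousWithinAt) (fun s hs => by
      rw [(hD s).deriv, real_inner_smul_right]
      exact mul_pos (hw s) (hpos s (interior_subset hs)))
  have := hm (Set.left_mem_Icc.2 hL.le) (Set.right_mem_Icc.2 hL.le) hL
  simp only [p1] at this
  exact lt_irrefl _ this

end Pool.Agent.H.MP_f07be6_gt
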