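import Pool.Agent.H.MP_f07be6_gt.C

namespace Pool.Agent.H.MP_f07be6_gt
open Real InnerProductSpace
open scoped ContDiff RealInnerProductSpace

variable {E : Type} [NormedAddCommGroup E] [InnerProductSpace ℝ E]

/-- unnormalised frame -/
noncomputable def gs (γ : ℝ → E) (i : ℕ) (t : ℝ) : E :=
  gramSchmidt ℝ (fun j : ℕ => iteratedDeriv (j + 1) γ t) i

/-- Frenet frame -/
noncomputable def fr (γ : ℝ → E) (i : ℕ) (t : ℝ) : E :=
  gramSchmidtNormed ℝ (fun j : ℕ => iteratedDeriv (j + 1) γ t) i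

lemma fr_eq (γ : ℝ → E) (i : ℕ) (t : ℝ) : fr γ i t = ‖gs γ i t‖⁻¹ • gs γ i t := rfl

lemma gs_def (γ : ℝ → E) (i : ℕ) (t : ℝ) : iteratedDeriv (i + 1) γ t = gs γ i t +
    ∑ l ∈ Finset.Iio i, (⟪gs γ l t, iteratedDeriv (i + 1) γ t⟫ / ‖gs γ l t‖ ^ 2) • gs γ l t :=
  gramSchmidt_def'' ℝ (fun j : ℕ => iteratedDeriv (j + 1) γ t) i

lemma gs_tri (γ : ℝ → E) {i j : ℕ} (h : i < j) (t : ℝ) :
    ⟪gs γ j t, iteratedDeriv (i + 1) γ t⟫ = 0 :=
  gramSchmidt_inv_triangular ℝ (fun j : ℕ => iteratedDeriv (j + 1) γ t) h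

lemma gs_orth (γ : ℝ → E) {i j : ℕ} (h : i ≠ j) (t : ℝ) : ⟪gs γ i t, gs γ j t⟫ = 0 :=
  gramSchmidt_orthogonal ℝ (fun j : ℕ => iteratedDeriv (j + 1) γ t) h

lemma gs_zero (γ : ℝ → E) (t : ℝ) : gs γ 0 t = iteratedDeriv 1 γ t := by
  have := gs_def γ 0 t
  simpa using this.symm

lemma gs_diag (γ : ℝ → E) (i : ℕ) (t : ℝ) :
    ⟪gs γ i t, iteratedDeriv (i + 1) γ t⟫ = ‖gs γ i t‖ ^ 2 := by
  rw [gs_def γ i t, inner_add_right, inner_sum, real_inner_self_eq_norm_sq, Finset.sum_eq_zero,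
    add_zero]
  intro l hl
  rw [real_inner_smul_right, gs_orth γ (Finset.mem_Iio.1 hl).ne', mul_zero]

variable {γ : ℝ → E} {n : ℕ}

lemma gs_ne (hl : ∀ t, LinearIndependent ℝ (fun j : Fin n => iteratedDeriv (j + 1) γ t))
    {i : ℕ} (hi : i < n) (t : ℝ) : gs γ i t ≠ 0 := by
  refine gramSchmidt_ne_zero_coe i ?_
  exact (hl t).comp (fun j : Set.Iic i => (⟨j.1, lt_of_le_of_lt j.2 hi⟩ : Fin n))
    (fun a b h => Subtype.ext (by simpa using h))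

lemma gs_smooth (hs : ContDiff ℝ ∞ γ)
    (hl : ∀ t, LinearIndependent ℝ (fun j : Fin n => iteratedDeriv (j + 1) γ t))
    (i : ℕ) (hi : i < n) : ContDiff ℝ ∞ (gs γ i) := by
  induction i using Nat.strong_induction_on with
  | _ i ih =>
    have e : gs γ i = fun t => iteratedDeriv (i + 1) γ t - ∑ l ∈ Finset.Iio i,
        (⟪gs γ l t, iteratedDeriv (i + 1) γ t⟫ / ‖gs γ l t‖ ^ 2) • gs γ l t := by
      funext t
      exact eq_sub_of_add_eq (gs_def γ i t).symm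
    rw [e]
    refine (sm_iter hs _).sub (ContDiff.sum fun l hl' => ?_)
    have h1 := Finset.mem_Iio.1 hl'
    have h2 := ih l h1 (h1.trans hi)
    refine ContDiff.smul (ContDiff.div (h2.inner ℝ (sm_iter hs _)) (h2.norm_sq ℝ) fun t => ?_) h2
    exact pow_ne_zero _ (norm_ne_zero_iff.2 (gs_ne hl (h1.trans hi) t))

lemma nm_smooth (hs : ContDiff ℝ ∞ γ)
    (hl : ∀ t, LinearIndependent ℝ (fun j : Fin n => iteratedDeriv (j + 1) γ t))
    (i : ℕ) (hi : i < n) : ContDiff ℝ ∞ (fun t => ‖gs γ i t‖⁻¹) :=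
  ((gs_smooth hs hl i hi).norm ℝ (gs_ne hl hi)).inv fun t => norm_ne_zero_iff.2 (gs_ne hl hi t)

lemma fr_smooth (hs : ContDiff ℝ ∞ γ)
    (hl : ∀ t, LinearIndependent ℝ (fun j : Fin n => iteratedDeriv (j + 1) γ t))
    (i : ℕ) (hi : i < n) : ContDiff ℝ ∞ (fr γ i) :=
  (nm_smooth hs hl i hi).smul (gs_smooth hs hl i hi)

lemma fr_unit (hl : ∀ t, LinearIndependent ℝ (fun j : Fin n => iteratedDeriv (j + 1) γ t))
    {i : ℕ} (hi : i < n) (t : ℝ) : ‖fr γ i t‖ = 1 := by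
  rw [fr_eq, norm_smul, norm_inv, norm_norm, inv_mul_cancel₀ (norm_ne_zero_iff.2 (gs_ne hl hi t))]

lemma gs_fr (hl : ∀ t, LinearIndependent ℝ (fun j : Fin n => iteratedDeriv (j + 1) γ t))
    {i : ℕ} (hi : i < n) (t : ℝ) : gs γ i t = ‖gs γ i t‖ • fr γ i t := by
  rw [fr_eq, smul_smul, mul_inv_cancel₀ (norm_ne_zero_iff.2 (gs_ne hl hi t)), one_smul]

lemma kappa1 (hs : ContDiff ℝ ∞ γ)
    (hl : ∀ t, LinearIndependent ℝ (fun j : Fin n => iteratedDeriv (j + 1) γ t))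
    (hn : 2 ≤ n) (t : ℝ) : ‖deriv (fr γ 0) t‖ ^ 2 = ⟪deriv (fr γ 0) t, fr γ 1 t⟫ ^ 2 := by
  have ha := ((nm_smooth hs hl 0 (by omega)).differentiable (by simp) t).hasDerivAt
  have hv := hd_iter hs 1 t
  have e0 : (fun t => ‖gs γ 0 t‖⁻¹) • iteratedDeriv 1 γ = fr γ 0 := by
    funext t; rw [fr_eq, Pi.smul_apply', ← gs_zero]
  have hd' := ha.smul hv
  rw [e0] at hd'
  have hperp := perp_of_unit (fr_unit hl (i := 0) (by omega)) hd'
  rw [hd'.deriv]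
  have d1 := gs_def γ 1 t
  have i1 : Finset.Iio 1 = {0} := by decide
  rw [i1, Finset.sum_singleton] at d1
  obtain ⟨x, y, hxy⟩ : ∃ x y : ℝ, ‖gs γ 0 t‖⁻¹ • iteratedDeriv (1 + 1) γ t +
      deriv (fun t => ‖gs γ 0 t‖⁻¹) t • iteratedDeriv 1 γ t = x • fr γ 0 t + y • fr γ 1 t := by
    generalize ⟪gs γ 0 t, iteratedDeriv (1 + 1) γ t⟫ / ‖gs γ 0 t‖ ^ 2 = c at d1
    refine ⟨(‖gs γ 0 t‖⁻¹ * c + deriv (fun t => ‖gs γ 0 t‖⁻¹) t) * ‖gs γ 0 t‖,
      ‖gs γ 0 t‖⁻¹ * ‖gs γ 1 t‖, ?_⟩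
    rw [mul_smul, mul_smul, ← gs_fr hl (by omega), ← gs_fr hl (by omega), d1, ← gs_zero]
    module
  have o01 : ⟪fr γ 0 t, fr γ 1 t⟫ = 0 := by
    rw [fr_eq, fr_eq, real_inner_smul_left, real_inner_smul_right, gs_orth γ zero_ne_one]; simp
  have u0 := fr_unit hl (i := 0) (by omega) t
  have u1 := fr_unit hl (i := 1) (by omega) t
  rw [hxy] at hperp ⊢
  rw [inner_add_right, real_inner_smul_right, real_inner_smul_right, o01,
    real_inner_self_eq_norm_sq, u0] at hperp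
  have hx : x = 0 := by linarith
  rw [hx, zero_smul, zero_add, norm_smul, u1, real_inner_smul_left, real_inner_self_eq_norm_sq, u1]
  simp

lemma kappa2 (hs : ContDiff ℝ ∞ γ)
    (hl : ∀ t, LinearIndependent ℝ (fun j : Fin n => iteratedDeriv (j + 1) γ t))
    (hn : 3 ≤ n) (t : ℝ) : ⟪deriv (fr γ 1) t, fr γ 2 t⟫ ≠ 0 := by
  have h1 := ((fr_smooth hs hl 1 (by omega)).differentiable (by simp) t).hasDerivAt
  have h2 := ((fr_smooth hs hl 2 (by omega)).differentiable (by simp) t).hasDerivAt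
  have tri : ∀ i < 2, ∀ s, ⟪fr γ 2 s, iteratedDeriv (i + 1) γ s⟫ = 0 := fun i hi s => by
    rw [fr_eq, real_inner_smul_left, gs_tri γ hi, mul_zero]
  have dz : ∀ {f : ℝ → ℝ} {d : ℝ}, HasDerivAt f d t → (∀ s, f s = 0) → d = 0 := by
    intro f d hf h0
    have : f = fun _ => 0 := funext h0
    rw [this] at hf
    exact hf.unique (hasDerivAt_const t 0)
  have a1 := dz (h1.inner ℝ h2) (fun s => by
    rw [fr_eq, fr_eq, real_inner_smul_left, real_inner_smul_right, gs_orth γ (by omega)]; simp)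
  have a2 := dz (h2.inner ℝ (hd_iter hs 1 t)) (tri 0 (by omega))
  have a3 := dz (h2.inner ℝ (hd_iter hs 2 t)) (tri 1 (by omega))
  rw [tri 1 (by omega) t, zero_add] at a2
  have d1 := gs_def γ 1 t
  have i1 : Finset.Iio 1 = {0} := by decide
  rw [i1, Finset.sum_singleton] at d1
  generalize ⟪gs γ 0 t, iteratedDeriv (1 + 1) γ t⟫ / ‖gs γ 0 t‖ ^ 2 = c at d1
  have e1 : gs γ 1 t = iteratedDeriv 2 γ t - c • iteratedDeriv 1 γ t := by
    rw [← gs_zero]; exact eq_sub_of_add_eq d1.symm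
  have a4 : ⟪fr γ 2 t, iteratedDeriv (2 + 1) γ t⟫ = ‖gs γ 2 t‖⁻¹ * ‖gs γ 2 t‖ ^ 2 := by
    rw [fr_eq, real_inner_smul_left, gs_diag]
  have a5 : ⟪fr γ 1 t, deriv (fr γ 2) t⟫ =
      ‖gs γ 1 t‖⁻¹ * -(‖gs γ 2 t‖⁻¹ * ‖gs γ 2 t‖ ^ 2) := by
    rw [fr_eq, real_inner_smul_left, real_inner_comm]
    congr 1
    rw [e1, inner_sub_right, real_inner_smul_right, a2]
    linarith
  have n1 := norm_pos_iff.2 (gs_ne hl (i := 1) (by omega) t)
  have n2 := norm_pos_iff.2 (gs_ne hl (i := 2) (by omega) t)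
  have : 0 < ‖gs γ 1 t‖⁻¹ * (‖gs γ 2 t‖⁻¹ * ‖gs γ 2 t‖ ^ 2) := by positivity
  intro h
  rw [h, a5] at a1
  linarith

theorem long (hs : ContDiff ℝ ∞ γ) (hp : Function.Periodic γ (2 * π))
    (hl : ∀ t, LinearIndependent ℝ (fun j : Fin n => iteratedDeriv (j + 1) γ t)) (hn : 3 ≤ n) :
    2 * π < ∫ t in (0 : ℝ)..2 * π, √(∑ i ∈ Finset.range (n - 1),
      (⟪deriv (fr γ i) t, fr γ (i + 1) t⟫ / ‖deriv γ t‖) ^ 2) * ‖deriv γ t‖ := by
  have hw : ∀ s, 0 < ‖deriv γ s‖ := fun s => by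
    have := norm_pos_iff.2 (gs_ne hl (i := 0) (by omega) s)
    rwa [gs_zero, iteratedDeriv_one] at this
  have s0 := fr_smooth hs hl 0 (by omega)
  have cd : ∀ i < n, Continuous (deriv (fr γ i)) := fun i hi =>
    (fr_smooth hs hl i hi).continuous_deriv (by simp)
  have hF := fenchel (γ := γ) (T := fr γ 0) (T' := deriv (fr γ 0)) (w := fun s => ‖gs γ 0 s‖)
    (fr_unit hl (by omega)) (fun s => (s0.differentiable (by simp) s).hasDerivAt)
    (cd 0 (by omega)) (fun s => norm_pos_iff.2 (gs_ne hl (by omega) s))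
    (fun s => by
      rw [← gs_fr hl (by omega), gs_zero]
      simpa using hd_iter hs 0 s) (L := 2 * π) (by positivity) (by simpa using hp 0)
    (by
      have := iter_per hp 1 0
      rw [zero_add] at this
      rw [fr_eq, fr_eq, gs_zero, gs_zero, this])
  refine hF.trans_lt ?_
  have e : (fun t => √(∑ i ∈ Finset.range (n - 1),
      (⟪deriv (fr γ i) t, fr γ (i + 1) t⟫ / ‖deriv γ t‖) ^ 2) * ‖deriv γ t‖) =
      fun t => √(∑ i ∈ Finset.range (n - 1), ⟪deriv (fr γ i) t, fr γ (i + 1) t⟫ ^ 2) := by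
    funext t
    simp only [div_pow, ← Finset.sum_div]
    rw [sqrt_div' _ (sq_nonneg _), sqrt_sq (norm_nonneg _), div_mul_cancel₀ _ (hw t).ne']
  rw [e]
  have lt : ∀ t, ‖deriv (fr γ 0) t‖ <
      √(∑ i ∈ Finset.range (n - 1), ⟪deriv (fr γ i) t, fr γ (i + 1) t⟫ ^ 2) := fun t => by
    apply lt_sqrt_of_sq_lt
    obtain ⟨m, hm⟩ : ∃ m, n - 1 = m + 1 + 1 := ⟨n - 3, by omega⟩
    rw [hm, Finset.sum_range_succ', Finset.sum_range_succ', kappa1 hs hl (by omega)]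
    have := sq_pos_of_ne_zero (kappa2 hs hl hn t)
    have h2 : 0 ≤ ∑ i ∈ Finset.range m,
        ⟪deriv (fr γ (i + 1 + 1)) t, fr γ (i + 1 + 1 + 1) t⟫ ^ 2 := by positivity
    simp only [zero_add] at *
    linarith
  refine intervalIntegral.integral_lt_integral_of_continuousOn_of_le_of_exists_lt (by positivity)
    (cd 0 (by omega)).norm.continuousOn (Continuous.continuousOn ?_) (fun t _ => (lt t).le)
    ⟨0, ⟨le_rfl, by positivity⟩, lt 0⟩
  refine continuous_sqrt.comp (continuous_finsetSum _ fun i hi => ?_)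
  have := Finset.mem_range.1 hi
  exact ((cd i (by omega)).inner (fr_smooth hs hl (i + 1) (by omega)).continuous).pow 2

end Pool.Agent.H.MP_f07be6_gt
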